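import Mathlib

set_option autoImplicit false

/-!
# FAT colourings with a prescribed parameter

For all `k ≥ 2` and rational `0 < α ≤ 1/(k-1)` there is a connected graph with FAT chromatic number
`k` and a FAT `k`-colouring with parameter `α`.
-/

namespace Pool.Agent.Results.MP_2d49c6_co.Prescribed

universe u

open Classical in
/-- the number of neighbours of `v` in the colour class `i` -/
noncomputable def nbrs {V : Type u} [Fintype V] (G : SimpleGraph V) {k : ℕ} (c : V → Fin k)
    (v : V) (i : Fin k) : ℕ :=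
  (Finset.univ.filter fun w => G.Adj v w ∧ c w = i).card

open Classical in
/-- the degree of `v` -/
noncomputable def dg {V : Type u} [Fintype V] (G : SimpleGraph V) (v : V) : ℕ :=
  (Finset.univ.filter fun w => G.Adj v w).card

/-- `c` is a FAT `k`-colouring of `G` with parameter `α` -/
def IsFAT {V : Type u} [Fintype V] (G : SimpleGraph V) (k : ℕ) (c : V → Fin k) (α : ℝ) : Prop :=
  Function.Surjective c ∧ 0 ≤ α ∧ α ≤ 1 ∧ ∀ v i,
    (i ≠ c v → (nbrs G c v i : ℝ) = α * dg G v) ∧
    (i = c v → (nbrs G c v i : ℝ) = (1 - (k - 1) * α) * dg G v)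

/-- `G` has FAT chromatic number `k`: it is the largest number of colours of a FAT colouring -/
def HasFATChromaticNumber {V : Type u} [Fintype V] (G : SimpleGraph V) (k : ℕ) : Prop :=
  IsGreatest {l : ℕ | ∃ (c : V → Fin l) (α : ℝ), IsFAT G l c α} k

/-! ### general facts -/

section general

variable {V : Type u} [Fintype V] {G : SimpleGraph V} {k : ℕ} {c : V → Fin k} {α : ℝ}

theorem alpha_pos (hG : G.Connected) (hk : 2 ≤ k) (h : IsFAT G k c α) : 0 < α := by
  classical
  obtain ⟨hs, h0, -, h2⟩ := h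
  rcases h0.lt_or_eq with h0 | h0
  · exact h0
  exfalso
  have hadj : ∀ v w, G.Adj v w → c v = c w := by
    intro v w hvw
    by_contra hne
    have h3 := (h2 v (c w)).1 (fun h => hne h.symm)
    rw [← h0, zero_mul, Nat.cast_eq_zero, nbrs, Finset.card_eq_zero] at h3
    have h4 : w ∈ (Finset.univ.filter fun z => G.Adj v z ∧ c z = c w) := by simp [hvw]
    rw [h3] at h4
    exact absurd h4 (Finset.notMem_empty _)
  have hwalk : ∀ v w, G.Reachable v w → c v = c w := by
    rintro v w ⟨p⟩
    induction p with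
    | nil => rfl
    | cons hh _ ih => exact (hadj _ _ hh).trans ih
  obtain ⟨v, hv⟩ := hs ⟨0, by omega⟩
  obtain ⟨w, hw⟩ := hs ⟨1, by omega⟩
  have := hwalk v w (hG.preconnected v w)
  rw [hv, hw] at this
  simp at this

theorem nbrs_zero {v : V} {i : Fin k} (h : ∀ w, G.Adj v w → c w ≠ i) :
    nbrs G c v i = 0 := by
  classical
  rw [nbrs, Finset.card_eq_zero, Finset.filter_eq_empty_iff]
  rintro w - ⟨h1, h2⟩
  exact h w h1 h2

theorem nbrs_one {v : V} {i : Fin k} (w0 : V) (h : ∀ w, (G.Adj v w ∧ c w = i) ↔ w = w0) :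
    nbrs G c v i = 1 := by
  classical
  rw [nbrs, Finset.card_eq_one]
  refine ⟨w0, ?_⟩
  ext z
  simp [h z]

/-- closed twins of different colours -/
theorem twins (h : IsFAT G k c α) {u w : V} (huw : G.Adj u w)
    (ht : ∀ z, z ≠ u → z ≠ w → (G.Adj u z ↔ G.Adj w z)) (hc : c u ≠ c w) :
    (α - (1 - (k - 1) * α)) * dg G u = 1 := by
  classical
  have hne : u ≠ w := huw.ne
  have h1 := (h.2.2.2 u (c u)).2 rfl
  have h2 := (h.2.2.2 w (c u)).1 hc
  have hd : dg G u = dg G w := by
    have e1 : (Finset.univ.filter fun z => G.Adj u z)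
        = insert w (Finset.univ.filter fun z => G.Adj u z ∧ z ≠ w) := by
      ext z
      simp only [Finset.mem_filter, Finset.mem_univ, true_and, Finset.mem_insert]
      constructor
      · intro hz
        by_cases hzw : z = w
        · exact Or.inl hzw
        · exact Or.inr ⟨hz, hzw⟩
      · rintro (rfl | hz)
        · exact huw
        · exact hz.1
    have e2 : (Finset.univ.filter fun z => G.Adj w z)
        = insert u (Finset.univ.filter fun z => G.Adj u z ∧ z ≠ w) := by
      ext z
      simp only [Finset.mem_filter, Finset.mem_univ, true_and, Finset.mem_insert]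
      constructor
      · intro hz
        by_cases hzu : z = u
        · exact Or.inl hzu
        · exact Or.inr ⟨(ht z hzu hz.ne').2 hz, hz.ne'⟩
      · rintro (rfl | hz)
        · exact huw.symm
        · exact (ht z hz.1.ne' hz.2).1 hz.1
    rw [dg, dg, e1, e2, Finset.card_insert_of_notMem, Finset.card_insert_of_notMem]
    · simp
    · simp
  have hn : nbrs G c w (c u) = nbrs G c u (c u) + 1 := by
    have e : (Finset.univ.filter fun z => G.Adj w z ∧ c z = c u)
        = insert u (Finset.univ.filter fun z => G.Adj u z ∧ c z = c u) := by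
      ext z
      simp only [Finset.mem_filter, Finset.mem_univ, true_and, Finset.mem_insert]
      constructor
      · rintro ⟨hz, hzc⟩
        by_cases hzu : z = u
        · exact Or.inl hzu
        · exact Or.inr ⟨(ht z hzu hz.ne').2 hz, hzc⟩
      · rintro (rfl | ⟨hz, hzc⟩)
        · exact ⟨huw.symm, rfl⟩
        · refine ⟨(ht z hz.ne' ?_).1 hz, hzc⟩
          rintro rfl
          exact hc hzc.symm
    rw [nbrs, nbrs, e, Finset.card_insert_of_notMem]
    simp
  rw [hn, Nat.cast_add, Nat.cast_one, h1, ← hd] at h2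
  linarith

/-- `(α - β) * deg z` is an integer -/
theorem int_mul (h : IsFAT G k c α) (hk : 2 ≤ k) (z : V) :
    ∃ m : ℤ, (α - (1 - (k - 1) * α)) * dg G z = m := by
  obtain ⟨i, hi⟩ : ∃ i : Fin k, i ≠ c z := by
    by_cases h0 : c z = ⟨0, by omega⟩
    · refine ⟨⟨1, by omega⟩, ?_⟩
      rw [h0]
      intro h
      simp at h
    · exact ⟨_, fun h => h0 h.symm⟩
  have h1 := (h.2.2.2 z (c z)).2 rfl
  have h2 := (h.2.2.2 z i).1 hi
  refine ⟨(nbrs G c z i : ℤ) - nbrs G c z (c z), ?_⟩
  push_cast
  rw [h1, h2]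
  ring

/-- closed twins have the same colour if their degree does not divide the degree of some vertex -/
theorem mono_twins (h : IsFAT G k c α) (hk : 2 ≤ k) {u w : V} (huw : G.Adj u w)
    (ht : ∀ z, z ≠ u → z ≠ w → (G.Adj u z ↔ G.Adj w z)) {z : V} (hz : ¬ dg G u ∣ dg G z) :
    c u = c w := by
  by_contra hc
  apply hz
  have h1 := twins h huw ht hc
  obtain ⟨m, hm⟩ := int_mul h hk z
  have h2 : ((dg G z : ℤ) : ℝ) = ((dg G u : ℤ) * m : ℤ) := by
    push_cast
    rw [← hm]
    linear_combination (-(dg G z : ℝ)) * h1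
  have h3 : (dg G z : ℤ) = (dg G u : ℤ) * m := by exact_mod_cast h2
  exact Int.natCast_dvd_natCast.1 ⟨m, h3⟩

end general

/-! ### number theory -/

theorem numbers {p r : ℕ} (hp : 1 ≤ p) (hr : 1 ≤ r) (hpr : Nat.Coprime p r) :
    ∃ n t s : ℕ, 2 ≤ n ∧ 1 ≤ t ∧ 1 ≤ s ∧
      p * r * n + s * (p * p * n) = r * (t * (r * r * n + 1)) + 1 := by
  set n := p * (r + 1) with hn
  have hn2 : 2 ≤ n := by
    rw [hn]
    nlinarith
  set M := p * p * n with hM
  set A := r * (r * r * n + 1) with hA
  have hrn : Nat.Coprime r n := by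
    rw [hn]
    refine Nat.Coprime.mul_right hpr.symm ?_
    simp
  have hrM : Nat.Coprime r M := by
    rw [hM]
    exact Nat.Coprime.mul_right (Nat.Coprime.mul_right hpr.symm hpr.symm) hrn
  have hbn : Nat.Coprime (r * r * n + 1) n := by simp
  have hbp : Nat.Coprime (r * r * n + 1) p := by
    refine Nat.Coprime.coprime_dvd_right ?_ hbn
    exact ⟨r + 1, hn⟩
  have hAM : Nat.Coprime A M := by
    rw [hA]
    refine Nat.Coprime.mul_left hrM ?_
    rw [hM]
    exact Nat.Coprime.mul_right (Nat.Coprime.mul_right hbp hbp) hbn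
  have hMpos : 0 < M := by rw [hM]; positivity
  have : NeZero M := ⟨hMpos.ne'⟩
  let z : ZMod M := (A : ZMod M)⁻¹ * ((p * r * n : ℕ) - 1)
  set t := z.val + M * (p * r * n + 1) with ht
  have htz : (t : ZMod M) = z := by
    rw [ht]
    push_cast
    simp
  have h1 : ((A * t : ℕ) : ZMod M) = (p * r * n : ℕ) - 1 := by
    push_cast
    rw [htz]
    change (A : ZMod M) * ((A : ZMod M)⁻¹ * ((p * r * n : ℕ) - 1)) = _
    rw [← mul_assoc, ZMod.coe_mul_inv_eq_one A hAM, one_mul]
    push_cast
    ring
  have hge : p * r * n + M ≤ A * t := by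
    have hA1 : 1 ≤ A := by
      rw [hA]
      exact Nat.mul_pos hr (Nat.succ_pos _)
    have h3 : M * (p * r * n + 1) ≤ t := Nat.le_add_left _ _
    have h4 : t ≤ A * t := Nat.le_mul_of_pos_left _ hA1
    have h5 : p * r * n + M ≤ M * (p * r * n + 1) := by
      rw [mul_add, mul_one]
      exact Nat.add_le_add_right (Nat.le_mul_of_pos_left _ hMpos) _
    omega
  have h2 : M ∣ A * t + 1 - p * r * n := by
    rw [← ZMod.natCast_eq_zero_iff, Nat.cast_sub (by omega), Nat.cast_add, h1]
    push_cast
    ring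
  obtain ⟨s, hs⟩ := h2
  have hspos : 1 ≤ s := by
    rcases Nat.eq_zero_or_pos s with h | h
    · rw [h, mul_zero] at hs
      omega
    · exact h
  refine ⟨n, t, s, hn2, ?_, hspos, ?_⟩
  · rw [ht]
    have : 0 < M * (p * r * n + 1) := by positivity
    omega
  · have h3 : A * t + 1 = M * s + p * r * n := by omega
    have h4 : r * (t * (r * r * n + 1)) = A * t := by
      rw [hA]
      ring
    rw [h4, h3]
    ring

/-! ### the construction -/

/-- the vertices: cliques `X i l` of size `x`, cliques `Y i` of size `y`, independent sets `P i l` of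
size `w` -/
abbrev Vert (k t x y s w : ℕ) : Type :=
  (Fin k × Fin t × Fin x) ⊕ (Fin k × Fin y) ⊕ (Fin k × Fin s × Fin w)

/-- the adjacency relation -/
def adj (k t x y s w : ℕ) : Vert k t x y s w → Vert k t x y s w → Prop
  | .inl (i, l, u), .inl (j, l', v) => i = j ∧ l = l' ∧ u ≠ v
  | .inl (i, _, _), .inr (.inl (j, _)) => i ≠ j
  | .inl _, .inr (.inr _) => False
  | .inr (.inl (i, _)), .inl (j, _, _) => i ≠ j
  | .inr (.inl (i, u)), .inr (.inl (j, v)) => i = j ∧ u ≠ v
  | .inr (.inl (i, _)), .inr (.inr (j, _, _)) => i = j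
  | .inr (.inr _), .inl _ => False
  | .inr (.inr (i, _, _)), .inr (.inl (j, _)) => i = j
  | .inr (.inr (i, l, _)), .inr (.inr (j, l', _)) => i ≠ j ∧ l = l'

/-- the graph -/
def gr (k t x y s w : ℕ) : SimpleGraph (Vert k t x y s w) where
  Adj := adj k t x y s w
  symm := ⟨by
    rintro (⟨i, l, u⟩ | ⟨i, u⟩ | ⟨i, l, u⟩) (⟨j, l', v⟩ | ⟨j, v⟩ | ⟨j, l', v⟩) h <;>
      simp only [adj] at h ⊢ <;> grind⟩
  loopless := ⟨by
    rintro (⟨i, l, u⟩ | ⟨i, u⟩ | ⟨i, l, u⟩) h <;> simp only [adj] at h <;> grind⟩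

/-- the colouring -/
def col (k t x y s w : ℕ) : Vert k t x y s w → Fin k
  | .inl (i, _, _) => i
  | .inr (.inl (i, _)) => i
  | .inr (.inr (i, _, _)) => i

section count

variable {k t x y s w : ℕ}

theorem nbrs_X_own (i : Fin k) (l : Fin t) (u : Fin x) :
    nbrs (gr k t x y s w) (col k t x y s w) (.inl (i, l, u)) i = x - 1 := by
  classical
  have e : (Finset.univ.filter fun z => (gr k t x y s w).Adj (.inl (i, l, u)) z ∧
      col k t x y s w z = i) = (Finset.univ.erase u).image
        (fun v => (Sum.inl (i, l, v) : Vert k t x y s w)) := by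
    ext z
    simp only [Finset.mem_filter, Finset.mem_univ, true_and, Finset.mem_image, Finset.mem_erase,
      and_true]
    rcases z with ⟨j, l', v⟩ | ⟨j, v⟩ | ⟨j, l', v⟩ <;> simp [gr, adj, col] <;> grind
  rw [nbrs, e, Finset.card_image_of_injective, Finset.card_erase_of_mem (Finset.mem_univ _),
    Finset.card_univ, Fintype.card_fin]
  intro a b h
  simpa using h

theorem nbrs_X_out (i j : Fin k) (hij : j ≠ i) (l : Fin t) (u : Fin x) :
    nbrs (gr k t x y s w) (col k t x y s w) (.inl (i, l, u)) j = y := by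
  classical
  have e : (Finset.univ.filter fun z => (gr k t x y s w).Adj (.inl (i, l, u)) z ∧
      col k t x y s w z = j) = (Finset.univ : Finset (Fin y)).image
        (fun v => (Sum.inr (Sum.inl (j, v)) : Vert k t x y s w)) := by
    ext z
    simp only [Finset.mem_filter, Finset.mem_univ, true_and, Finset.mem_image]
    rcases z with ⟨j, l', v⟩ | ⟨j, v⟩ | ⟨j, l', v⟩ <;> simp [gr, adj, col] <;> grind
  rw [nbrs, e, Finset.card_image_of_injective, Finset.card_univ, Fintype.card_fin]
  intro a b h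
  simpa using h

theorem nbrs_Y_own (i : Fin k) (u : Fin y) :
    nbrs (gr k t x y s w) (col k t x y s w) (.inr (.inl (i, u))) i = (y - 1) + s * w := by
  classical
  have e : (Finset.univ.filter fun z => (gr k t x y s w).Adj (.inr (.inl (i, u))) z ∧
      col k t x y s w z = i) = (Finset.univ.erase u).image
        (fun v => (Sum.inr (Sum.inl (i, v)) : Vert k t x y s w)) ∪
        (Finset.univ : Finset (Fin s × Fin w)).image
          (fun v => (Sum.inr (Sum.inr (i, v)) : Vert k t x y s w)) := by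
    ext z
    simp only [Finset.mem_filter, Finset.mem_univ, true_and, Finset.mem_image, Finset.mem_erase,
      and_true, Finset.mem_union]
    rcases z with ⟨j, l', v⟩ | ⟨j, v⟩ | ⟨j, l', v⟩ <;> simp [gr, adj, col] <;> grind
  rw [nbrs, e, Finset.card_union_of_disjoint, Finset.card_image_of_injective,
    Finset.card_image_of_injective, Finset.card_erase_of_mem (Finset.mem_univ _),
    Finset.card_univ, Finset.card_univ, Fintype.card_fin, Fintype.card_prod, Fintype.card_fin,
    Fintype.card_fin]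
  · intro a b h
    simpa using h
  · intro a b h
    simpa using h
  · rw [Finset.disjoint_left]
    intro z h h'
    simp only [Finset.mem_image] at h h'
    obtain ⟨v, -, rfl⟩ := h
    obtain ⟨v', -, h'⟩ := h'
    simp at h'

theorem nbrs_Y_out (i j : Fin k) (hij : j ≠ i) (u : Fin y) :
    nbrs (gr k t x y s w) (col k t x y s w) (.inr (.inl (i, u))) j = t * x := by
  classical
  have e : (Finset.univ.filter fun z => (gr k t x y s w).Adj (.inr (.inl (i, u))) z ∧
      col k t x y s w z = j) = (Finset.univ : Finset (Fin t × Fin x)).image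
        (fun v => (Sum.inl (j, v) : Vert k t x y s w)) := by
    ext z
    simp only [Finset.mem_filter, Finset.mem_univ, true_and, Finset.mem_image]
    rcases z with ⟨j, l', v⟩ | ⟨j, v⟩ | ⟨j, l', v⟩ <;> simp [gr, adj, col] <;> grind
  rw [nbrs, e, Finset.card_image_of_injective, Finset.card_univ, Fintype.card_prod,
    Fintype.card_fin, Fintype.card_fin]
  intro a b h
  simpa using h

theorem nbrs_P_own (i : Fin k) (l : Fin s) (u : Fin w) :
    nbrs (gr k t x y s w) (col k t x y s w) (.inr (.inr (i, l, u))) i = y := by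
  classical
  have e : (Finset.univ.filter fun z => (gr k t x y s w).Adj (.inr (.inr (i, l, u))) z ∧
      col k t x y s w z = i) = (Finset.univ : Finset (Fin y)).image
        (fun v => (Sum.inr (Sum.inl (i, v)) : Vert k t x y s w)) := by
    ext z
    simp only [Finset.mem_filter, Finset.mem_univ, true_and, Finset.mem_image]
    rcases z with ⟨j, l', v⟩ | ⟨j, v⟩ | ⟨j, l', v⟩ <;> simp [gr, adj, col] <;> grind
  rw [nbrs, e, Finset.card_image_of_injective, Finset.card_univ, Fintype.card_fin]
  intro a b h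
  simpa using h

theorem nbrs_P_out (i j : Fin k) (hij : j ≠ i) (l : Fin s) (u : Fin w) :
    nbrs (gr k t x y s w) (col k t x y s w) (.inr (.inr (i, l, u))) j = w := by
  classical
  have e : (Finset.univ.filter fun z => (gr k t x y s w).Adj (.inr (.inr (i, l, u))) z ∧
      col k t x y s w z = j) = (Finset.univ : Finset (Fin w)).image
        (fun v => (Sum.inr (Sum.inr (j, l, v)) : Vert k t x y s w)) := by
    ext z
    simp only [Finset.mem_filter, Finset.mem_univ, true_and, Finset.mem_image]
    rcases z with ⟨j, l', v⟩ | ⟨j, v⟩ | ⟨j, l', v⟩ <;> simp [gr, adj, col] <;> grind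
  rw [nbrs, e, Finset.card_image_of_injective, Finset.card_univ, Fintype.card_fin]
  intro a b h
  simpa using h

end count

/-- the degree is the sum over the colour classes -/
theorem dg_eq_sum {V : Type u} [Fintype V] (G : SimpleGraph V) {k : ℕ} (c : V → Fin k) (v : V) :
    dg G v = ∑ i, nbrs G c v i := by
  classical
  rw [dg, Finset.card_eq_sum_card_fiberwise (f := c) (t := Finset.univ)]
  · refine Finset.sum_congr rfl fun i _ => ?_
    rw [nbrs, Finset.filter_filter]
  · intro w _
    simp

/-- if every vertex sees `p E` vertices of each other class and `r E` vertices of its own -/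
theorem fat_of {V : Type u} [Fintype V] {G : SimpleGraph V} {k : ℕ} {c : V → Fin k}
    (hs : Function.Surjective c) (hk : 2 ≤ k) {p r : ℕ} (hp : 1 ≤ p) (E : V → ℕ)
    (h1 : ∀ v, nbrs G c v (c v) = r * E v) (h2 : ∀ v i, i ≠ c v → nbrs G c v i = p * E v) :
    (∀ v, dg G v = (r + (k - 1) * p) * E v) ∧
      IsFAT G k c ((p : ℝ) / ((r + (k - 1) * p : ℕ) : ℝ)) := by
  have hd : ∀ v, dg G v = (r + (k - 1) * p) * E v := by
    intro v
    rw [dg_eq_sum G c v, ← Finset.add_sum_erase _ _ (Finset.mem_univ (c v)), h1,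
      Finset.sum_congr rfl (fun i hi => h2 v i (Finset.ne_of_mem_erase hi)), Finset.sum_const,
      Finset.card_erase_of_mem (Finset.mem_univ _), Finset.card_univ, Fintype.card_fin,
      smul_eq_mul]
    ring
  have hpos : 0 < (r + (k - 1) * p : ℕ) := by
    have : 1 ≤ (k - 1) * p := Nat.mul_pos (by omega) hp
    omega
  have hpos' : (0 : ℝ) < ((r + (k - 1) * p : ℕ) : ℝ) := by exact_mod_cast hpos
  have hcast : ((r + (k - 1) * p : ℕ) : ℝ) = r + (k - 1) * p := by
    push_cast [Nat.cast_sub (show 1 ≤ k by omega)]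
    ring
  refine ⟨hd, hs, by positivity, ?_, ?_⟩
  · rw [div_le_one hpos']
    have : p ≤ (r + (k - 1) * p : ℕ) := by
      have : p ≤ (k - 1) * p := Nat.le_mul_of_pos_left _ (by omega)
      omega
    exact_mod_cast this
  · intro v i
    constructor
    · intro hi
      rw [h2 v i hi, hd v, Nat.cast_mul, Nat.cast_mul, ← mul_assoc,
        div_mul_cancel₀ _ hpos'.ne']
    · rintro rfl
      rw [h1 v, hd v, hcast]
      push_cast [Nat.cast_sub (show 1 ≤ k by omega)]
      rw [hcast] at hpos'
      field_simp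
      ring

theorem connected {k t x y s w : ℕ} (hk : 2 ≤ k) (hy : 1 ≤ y) (hs : 1 ≤ s) (hw : 1 ≤ w) :
    (gr k t x y s w).Connected := by
  have hother : ∀ i : Fin k, ∃ j : Fin k, i ≠ j := by
    intro i
    by_cases h0 : i = ⟨0, by omega⟩
    · refine ⟨⟨1, by omega⟩, ?_⟩
      rw [h0]
      intro h
      simp at h
    · exact ⟨_, h0⟩
  let i0 : Fin k := ⟨0, by omega⟩
  let l0 : Fin s := ⟨0, by omega⟩
  let u0 : Fin w := ⟨0, by omega⟩
  let v0 : Fin y := ⟨0, by omega⟩
  have hY : ∀ i v, (gr k t x y s w).Reachable (.inr (.inl (i, v))) (.inr (.inr (i0, l0, u0))) := by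
    intro i v
    have h1 : (gr k t x y s w).Adj (.inr (.inl (i, v))) (.inr (.inr (i, l0, u0))) := by
      simp [gr, adj]
    by_cases hi : i = i0
    · subst hi
      exact h1.reachable
    · have h2 : (gr k t x y s w).Adj (.inr (.inr (i, l0, u0))) (.inr (.inr (i0, l0, u0))) := by
        simp [gr, adj, hi]
      exact h1.reachable.trans h2.reachable
  have hall : ∀ z, (gr k t x y s w).Reachable z (.inr (.inr (i0, l0, u0))) := by
    rintro (⟨i, l, u⟩ | ⟨i, u⟩ | ⟨i, l, u⟩)
    · obtain ⟨j, hj⟩ := hother i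
      have h1 : (gr k t x y s w).Adj (.inl (i, l, u)) (.inr (.inl (j, v0))) := by
        simp [gr, adj, hj]
      exact h1.reachable.trans (hY j v0)
    · exact hY i u
    · have h1 : (gr k t x y s w).Adj (.inr (.inr (i, l, u))) (.inr (.inl (i, v0))) := by
        simp [gr, adj]
      exact h1.reachable.trans (hY i v0)
  exact (SimpleGraph.connected_iff_exists_forall_reachable _).2
    ⟨.inr (.inr (i0, l0, u0)), fun z => (hall z).symm⟩

/-- the case `α < 1/(k-1)` -/
theorem main {k p r : ℕ} (hk : 2 ≤ k) (hp : 1 ≤ p) (hr : 1 ≤ r) (hpr : Nat.Coprime p r) :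
    ∃ (V : Type) (_ : Fintype V) (G : SimpleGraph V), G.Connected ∧ HasFATChromaticNumber G k ∧
      ∃ c : V → Fin k, IsFAT G k c ((p : ℝ) / ((r + (k - 1) * p : ℕ) : ℝ)) := by
  classical
  obtain ⟨n, t, s, hn, ht, hs, heq⟩ := numbers hp hr hpr
  set x := r * r * n + 1 with hx
  set y := p * r * n with hy
  set w := p * p * n with hw
  set T := p * t with hT
  have hy1 : 1 ≤ y := by
    rw [hy]
    exact Nat.mul_pos (Nat.mul_pos hp hr) (by omega)
  have hw1 : 1 ≤ w := by
    rw [hw]
    exact Nat.mul_pos (Nat.mul_pos hp hp) (by omega)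
  have hT1 : 1 ≤ T := Nat.mul_pos hp ht
  let G := gr k T x y s w
  let c := col k T x y s w
  have hG : G.Connected := connected hk hy1 hs hw1
  let E : Vert k T x y s w → ℕ := fun v => match v with
    | .inl _ => r * n
    | .inr (.inl _) => t * x
    | .inr (.inr _) => p * n
  have hsurj : Function.Surjective c := fun i => ⟨.inr (.inl (i, ⟨0, by omega⟩)), rfl⟩
  obtain ⟨hd, hfat⟩ := fat_of (G := G) (c := c) hsurj hk (p := p) (r := r) hp E
    (by
      rintro (⟨i, l, u⟩ | ⟨i, u⟩ | ⟨i, l, u⟩)
      · rw [show c (.inl (i, l, u)) = i from rfl, nbrs_X_own]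
        change x - 1 = r * (r * n)
        rw [hx, Nat.add_sub_cancel, mul_assoc]
      · rw [show c (.inr (.inl (i, u))) = i from rfl, nbrs_Y_own]
        change y - 1 + s * w = r * (t * x)
        omega
      · rw [show c (.inr (.inr (i, l, u))) = i from rfl, nbrs_P_own]
        change y = r * (p * n)
        rw [hy]
        ring)
    (by
      rintro (⟨i, l, u⟩ | ⟨i, u⟩ | ⟨i, l, u⟩) j hj
      · refine (nbrs_X_out i j hj l u).trans ?_
        change y = p * (r * n)
        rw [hy]
        ring
      · refine (nbrs_Y_out i j hj u).trans ?_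
        change T * x = p * (t * x)
        rw [hT]
        ring
      · refine (nbrs_P_out i j hj l u).trans ?_
        change w = p * (p * n)
        rw [hw]
        ring)
  refine ⟨Vert k T x y s w, inferInstance, G, hG, ⟨⟨c, _, hfat⟩, ?_⟩, c, hfat⟩
  -- the upper bound
  rintro k' ⟨c', α', h'⟩
  by_contra hlt
  push Not at hlt
  have hk' : 2 ≤ k' := by omega
  have hα : 0 < α' := alpha_pos hG hk' h'
  set q := r + (k - 1) * p with hq
  have hqpos : 0 < q := by omega
  let i0 : Fin k := ⟨0, by omega⟩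
  let l0 : Fin T := ⟨0, by omega⟩
  let u0 : Fin x := ⟨0, by omega⟩
  let v0 : Fin y := ⟨0, by omega⟩
  have hdX : ∀ i l u, dg G (.inl (i, l, u)) = q * (r * n) := fun i l u => hd _
  have hdY : ∀ i u, dg G (.inr (.inl (i, u))) = q * (t * x) := fun i u => hd _
  have hX : ∀ u, c' (.inl (i0, l0, u)) = c' (.inl (i0, l0, u0)) := by
    intro u
    by_cases hu : u = u0
    · rw [hu]
    · refine mono_twins h' hk' (z := .inr (.inl (i0, v0))) ?_ ?_ ?_
      · simp [G, gr, adj, hu]
      · rintro (⟨i, l, u⟩ | ⟨i, u⟩ | ⟨i, l, u⟩) h1 h2 <;>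
          (simp [G, gr, adj] at h1 h2 ⊢; try grind)
      · rw [hdX, hdY]
        intro hdvd
        have h1 : r * n ∣ t * x := Nat.dvd_of_mul_dvd_mul_left hqpos hdvd
        have h2 : n ∣ r * (t * x) := ((Dvd.intro_left r rfl).trans h1).mul_left r
        have h3 : n ∣ r * (t * x) + 1 := by
          rw [← heq]
          exact (Dvd.intro_left _ rfl).add ((Dvd.intro_left _ rfl : n ∣ w).mul_left s)
        have h4 : n ∣ 1 := (Nat.dvd_add_right h2).1 h3
        have := Nat.le_of_dvd one_pos h4
        omega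
  have hY : ∀ j u, c' (.inr (.inl (j, u))) = c' (.inr (.inl (j, v0))) := by
    intro j u
    by_cases hu : u = v0
    · rw [hu]
    · refine mono_twins h' hk' (z := .inl (i0, l0, u0)) ?_ ?_ ?_
      · simp [G, gr, adj, hu]
      · rintro (⟨i, l, u⟩ | ⟨i, u⟩ | ⟨i, l, u⟩) h1 h2 <;>
          (simp [G, gr, adj] at h1 h2 ⊢; try grind)
      · rw [hdX, hdY]
        intro hdvd
        have h1 : t * x ∣ r * n := Nat.dvd_of_mul_dvd_mul_left hqpos hdvd
        have h2 := Nat.le_of_dvd (Nat.mul_pos hr (by omega)) h1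
        have h3 : r * n ≤ r * r * n := Nat.mul_le_mul_right _ (Nat.le_mul_of_pos_left _ hr)
        have h4 : x ≤ t * x := Nat.le_mul_of_pos_left _ ht
        omega
  have hsub : (Finset.univ : Finset (Fin k')) ⊆ insert (c' (.inl (i0, l0, u0)))
      ((Finset.univ.erase i0).image fun j => c' (.inr (.inl (j, v0)))) := by
    intro i _
    rw [Finset.mem_insert]
    by_cases hi : i = c' (.inl (i0, l0, u0))
    · exact Or.inl hi
    right
    have h1 := (h'.2.2.2 (.inl (i0, l0, u0)) i).1 hi
    have h2 : 0 < nbrs G c' (.inl (i0, l0, u0)) i := by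
      have : (0 : ℝ) < nbrs G c' (.inl (i0, l0, u0)) i := by
        rw [h1, hdX]
        have : 0 < q * (r * n) := Nat.mul_pos hqpos (Nat.mul_pos hr (by omega))
        have : (0 : ℝ) < ((q * (r * n) : ℕ) : ℝ) := by exact_mod_cast this
        positivity
      exact_mod_cast this
    rw [nbrs, Finset.card_pos] at h2
    obtain ⟨z, hz⟩ := h2
    simp only [Finset.mem_filter, Finset.mem_univ, true_and] at hz
    obtain ⟨hz1, hz2⟩ := hz
    rcases z with ⟨j, l', v⟩ | ⟨j, v⟩ | ⟨j, l', v⟩
    · simp only [G, gr, adj] at hz1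
      obtain ⟨rfl, rfl, -⟩ := hz1
      exact absurd (hz2.symm.trans (hX v)) hi
    · simp only [G, gr, adj] at hz1
      rw [Finset.mem_image]
      refine ⟨j, ?_, ?_⟩
      · simpa using fun h => hz1 h.symm
      · rw [← hY j v, hz2]
    · simp only [G, gr, adj] at hz1
  have := Finset.card_le_card hsub
  rw [Finset.card_univ, Fintype.card_fin] at this
  have h2 := Finset.card_insert_le (c' (.inl (i0, l0, u0)))
    ((Finset.univ.erase i0).image fun j => c' (.inr (.inl (j, v0))))
  have h3 := Finset.card_image_le (s := Finset.univ.erase i0)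
    (f := fun j => c' (.inr (.inl (j, v0))))
  rw [Finset.card_erase_of_mem (Finset.mem_univ _), Finset.card_univ, Fintype.card_fin] at h3
  omega

/-- the endpoint `α = 1/(k-1)`: the complete graph -/
theorem complete {k : ℕ} (hk : 2 ≤ k) :
    ∃ (V : Type) (_ : Fintype V) (G : SimpleGraph V), G.Connected ∧ HasFATChromaticNumber G k ∧
      ∃ c : V → Fin k, IsFAT G k c (((1 : ℕ) : ℝ) / ((0 + (k - 1) * 1 : ℕ) : ℝ)) := by
  classical
  have : Nonempty (Fin k) := ⟨⟨0, by omega⟩⟩
  obtain ⟨-, hfat⟩ := fat_of (G := (⊤ : SimpleGraph (Fin k))) (c := id) Function.surjective_id hk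
    (p := 1) (r := 0) le_rfl (fun _ => 1)
    (by
      intro v
      rw [zero_mul]
      exact nbrs_zero fun w hw h => hw h.symm)
    (by
      intro v i hi
      rw [one_mul]
      refine nbrs_one i fun w => ⟨fun h => h.2, ?_⟩
      rintro rfl
      exact ⟨fun h => hi h.symm, rfl⟩)
  refine ⟨Fin k, inferInstance, ⊤, SimpleGraph.connected_top, ⟨⟨id, _, hfat⟩, ?_⟩, id, hfat⟩
  rintro k' ⟨c', α', h'⟩
  have := Fintype.card_le_of_surjective _ h'.1
  simpa using this

/-- **MP_2d49c6_co, Q1.** For every `k ≥ 2` and every rational `0 < α ≤ 1/(k-1)` there is a finite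
connected graph with FAT chromatic number exactly `k` that has a FAT `k`-colouring with
parameter `α`. -/
theorem result (k : ℕ) (hk : 2 ≤ k) (α : ℚ) (h0 : 0 < α) (h1 : α ≤ 1 / ((k : ℚ) - 1)) :
    ∃ (V : Type) (_ : Fintype V) (G : SimpleGraph V), G.Connected ∧ HasFATChromaticNumber G k ∧
      ∃ c : V → Fin k, IsFAT G k c (α : ℝ) := by
  obtain ⟨p, q, hp, hq, hcop, hα⟩ : ∃ p q : ℕ, 1 ≤ p ∧ 1 ≤ q ∧ Nat.Coprime p q ∧
      α = (p : ℚ) / (q : ℚ) := by
    refine ⟨α.num.natAbs, α.den, ?_, α.pos, α.reduced, ?_⟩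
    · have := Rat.num_pos.2 h0
      omega
    · have h2 : ((α.num.natAbs : ℕ) : ℚ) = (α.num : ℚ) := by
        have := Rat.num_pos.2 h0
        rw [← Int.cast_natCast, Int.natAbs_of_nonneg this.le]
      rw [h2, Rat.num_div_den]
  have hqQ : (0 : ℚ) < q := by exact_mod_cast hq
  have hk1 : (0 : ℚ) < (k : ℚ) - 1 := by
    have : (2 : ℚ) ≤ k := by exact_mod_cast hk
    linarith
  have hle : (k - 1) * p ≤ q := by
    rw [hα, div_le_div_iff₀ hqQ hk1, one_mul] at h1
    have h2 : (((k - 1) * p : ℕ) : ℚ) ≤ q := by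
      push_cast [Nat.cast_sub (show 1 ≤ k by omega)]
      linarith
    exact_mod_cast h2
  obtain ⟨r, hr⟩ := Nat.exists_eq_add_of_le hle
  rcases Nat.eq_zero_or_pos r with h | h
  · subst h
    rw [add_zero] at hr
    have hp1 : p = 1 := by
      have h2 : p ∣ q := ⟨k - 1, by rw [hr]; ring⟩
      exact Nat.Coprime.eq_one_of_dvd hcop h2
    subst hp1
    have h3 := complete hk
    have h4 : (α : ℝ) = ((1 : ℕ) : ℝ) / ((0 + (k - 1) * 1 : ℕ) : ℝ) := by
      rw [hα, hr]
      push_cast
      simp
    rw [h4]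
    exact h3
  · have hcop' : Nat.Coprime p r := by
      rw [hr] at hcop
      have := hcop
      rwa [add_comm, Nat.coprime_add_mul_right_right] at this
    have h3 := main hk hp h hcop'
    have h4 : (α : ℝ) = ((p : ℕ) : ℝ) / ((r + (k - 1) * p : ℕ) : ℝ) := by
      rw [hα, hr, add_comm]
      push_cast
      rfl
    rw [h4]
    exact h3

end Pool.Agent.Results.MP_2d49c6_co.Prescribed
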